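import Pool.Agent.W646.CI.Stm
import Pool.Agent.W778.UI.A

/-!
Project CI, part CI-LIM: the limit function.
-/

set_option autoImplicit false

namespace Pool.Agent.W991.CI

open Filter Topology Set Metric Pool.Agent.W646.CI

/-- maximum principle on a closed ball -/
theorem max_ball {f : ℂ → ℂ} (hf : Differentiable ℂ f) {a : ℂ} {ρ C : ℝ} (hρ : 0 < ρ)
    (hC : ∀ w : ℂ, ‖w - a‖ = ρ → ‖f w‖ ≤ C) {z : ℂ} (hz : ‖z - a‖ ≤ ρ) : ‖f z‖ ≤ C := by
  refine Complex.norm_le_of_forall_mem_frontier_norm_le (U := ball a ρ) isBounded_ball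
    hf.diffContOnCl ?_ ?_
  · intro w hw
    rw [frontier_ball a hρ.ne', mem_sphere, dist_eq_norm] at hw
    exact hC w hw
  · rw [closure_ball a hρ.ne', mem_closedBall, dist_eq_norm]
    exact hz

theorem one_le_log {x : ℝ} (hx : 3 ≤ x) : 1 ≤ Real.log x := by
  rw [Real.le_log_iff_exp_le (by linarith)]
  have := Real.exp_one_lt_d9
  linarith

theorem main (hP : S_POLY) : S_LIM := by
  intro K R ε hK hR hR1 hε hε1
  obtain ⟨T0, η, hη, hη0, ⟨M, hM⟩, hf⟩ := hP K R ε hK hR hR1 hε hε1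
  refine ⟨T0, η, hη, hη0, ⟨M, hM⟩, ?_⟩
  choose f hfd hf0 hfb hfw using hf
  have hM0 : 0 ≤ M := (hη0 0).trans (hM 0)
  set B : ℂ → ℝ := fun z => Real.exp ((1 + M) * Real.exp (Real.log (‖z‖ + 3) ^ K)) with hB
  have hBc : Continuous B := by
    have h1 : Continuous fun z : ℂ => Real.log (‖z‖ + 3) := by
      refine Continuous.log (by fun_prop) fun z => ?_
      positivity
    exact Real.continuous_exp.comp (continuous_const.mul (Real.continuous_exp.comp (h1.pow K)))
  have hb1 : ∀ n z, Real.exp 1 ≤ ‖z‖ → ‖f n z‖ ≤ B z := by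
    intro n z hz
    refine (hfb n z hz).trans ?_
    unfold bd
    have hz0 : 0 < ‖z‖ := lt_of_lt_of_le (Real.exp_pos 1) hz
    have h1 : 1 ≤ Real.log ‖z‖ := by
      rw [Real.le_log_iff_exp_le hz0]; exact hz
    have h2 : Real.log ‖z‖ ≤ Real.log (‖z‖ + 3) := Real.log_le_log hz0 (by linarith)
    have h3 : Real.log ‖z‖ ^ K ≤ Real.log (‖z‖ + 3) ^ K :=
      pow_le_pow_left₀ (by linarith) h2 K
    simp only [hB]
    apply Real.exp_le_exp.2
    have h4 := hM (Real.log ‖z‖)
    exact mul_le_mul (by linarith) (Real.exp_le_exp.2 h3) (Real.exp_pos _).le (by linarith)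
  have hb : ∀ n z, ‖f n z‖ ≤ B z := by
    intro n z
    rcases le_total (Real.exp 1) ‖z‖ with hz | hz
    · exact hb1 n z hz
    · have h1 : ‖f n z‖ ≤ Real.exp ((1 + M) * Real.exp 1) := by
        refine max_ball (hfd n) (a := 0) (Real.exp_pos 1) ?_ (by rwa [sub_zero])
        intro w hw
        rw [sub_zero] at hw
        refine (hfb n w hw.ge).trans ?_
        unfold bd
        rw [hw, Real.log_exp, one_pow]
        apply Real.exp_le_exp.2
        have h4 := hM 1
        exact mul_le_mul_of_nonneg_right (by linarith) (Real.exp_pos _).le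
      refine h1.trans ?_
      simp only [hB]
      apply Real.exp_le_exp.2
      have h2 : 1 ≤ Real.log (‖z‖ + 3) := one_le_log (by linarith [norm_nonneg z])
      have h3 : 1 ≤ Real.log (‖z‖ + 3) ^ K := one_le_pow₀ h2
      exact mul_le_mul_of_nonneg_left (Real.exp_le_exp.2 h3) (by linarith)
  obtain ⟨Φ, hΦd, -, hΦ⟩ := Pool.Agent.W778.UI.montel_entire f hfd B hBc hb (hyperfilter ℕ)
  have hΦt : ∀ z, Tendsto (fun n => f n z) (hyperfilter ℕ : Filter ℕ) (𝓝 (Φ z)) := fun z =>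
    hΦ.tendsto_at (mem_univ z)
  refine ⟨Φ, hΦd, ?_, ?_, ?_⟩
  · refine tendsto_nhds_unique (hΦt 0) ?_
    refine Tendsto.congr (fun n => (hf0 n).symm) tendsto_const_nhds
  · intro z hz
    exact le_of_tendsto (hΦt z).norm (Eventually.of_forall fun n => hfb n z hz)
  · intro j hj ρ hρ B' hB' z hz
    set ζ := Complex.exp (sj K j) with hζ
    set m := mj K R ε j with hm
    have hq0 : 0 ≤ ‖z - ζ‖ / ρ := by positivity
    have hq1 : ‖z - ζ‖ / ρ ≤ 1 := by rwa [div_le_one hρ]
    refine le_of_forall_pos_le_add fun e he => ?_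
    have hcpt : TendstoUniformlyOn f Φ (hyperfilter ℕ : Filter ℕ) (sphere ζ ρ) :=
      (tendstoLocallyUniformlyOn_iff_forall_isCompact isOpen_univ).1 hΦ _ (subset_univ _)
        (isCompact_sphere ζ ρ)
    have h1 := (Metric.tendstoUniformlyOn_iff.1 hcpt) e he
    have h2 : ∀ᶠ n : ℕ in (hyperfilter ℕ : Filter ℕ), tj K j ≤ (n : ℝ) - 1 := by
      refine Nat.hyperfilter_le_atTop ?_
      filter_upwards [eventually_ge_atTop ⌈tj K j + 1⌉₊] with n hn
      have := Nat.ceil_le.1 hn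
      linarith
    have h3 : ∀ᶠ n in (hyperfilter ℕ : Filter ℕ), ‖f n z‖ ≤ (‖z - ζ‖ / ρ) ^ m * (B' + e) := by
      filter_upwards [h1, h2] with n k1 k2
      obtain ⟨g, hg, hfg⟩ := hfw n j hj k2
      have k3 : ‖g z‖ ≤ (B' + e) / ρ ^ m := by
        refine max_ball hg hρ ?_ hz
        intro w hw
        rw [le_div_iff₀ (by positivity)]
        have k4 := k1 w (by rw [mem_sphere, dist_eq_norm]; exact hw)
        rw [dist_eq_norm] at k4
        have k5 : ‖f n w‖ ≤ B' + e := by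
          have k6 := hB' w hw
          have k7 : ‖f n w‖ ≤ ‖Φ w‖ + ‖Φ w - f n w‖ := by
            have : f n w = Φ w - (Φ w - f n w) := by ring
            calc ‖f n w‖ = ‖Φ w - (Φ w - f n w)‖ := by rw [← this]
              _ ≤ _ := norm_sub_le _ _
          linarith
        rw [hfg w, norm_mul, norm_pow, hw] at k5
        linarith
      rw [hfg z, norm_mul, norm_pow, div_pow]
      calc ‖z - ζ‖ ^ m * ‖g z‖ ≤ ‖z - ζ‖ ^ m * ((B' + e) / ρ ^ m) :=
            mul_le_mul_of_nonneg_left k3 (by positivity)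
        _ = _ := by ring
    have h4 : ‖Φ z‖ ≤ (‖z - ζ‖ / ρ) ^ m * (B' + e) := le_of_tendsto (hΦt z).norm h3
    have h5 : (‖z - ζ‖ / ρ) ^ m ≤ 1 := pow_le_one₀ hq0 hq1
    nlinarith

end Pool.Agent.W991.CI
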